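import Pool.Agent.R859.QD.Prod

/-!
# Positivity of the sums A, B, C
-/

set_option autoImplicit false

open Finset

namespace Pool.Agent.R859.QD

open Pool.Agent.R859.QB

noncomputable section

theorem xx_zero : xx 0 = 0 := by rw [xx, qn_zero]; ring

theorem Fj_succ (j c : ℕ) : Fj (j + c) (j + 1) = (q ^ (2 * j + 1))⁻¹ *
    (qn (2 * (j + c) + 1) * qn (2 * j + 2) * qn (j + 1) ^ 2) * pj j (j + c) := by
  rw [Fj, if_pos (by omega), pj, if_pos (by omega)]
  have e1 : j + c + 1 - (j + 1) = c := by omega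
  have e2 : j + c - j = c := by omega
  have e3 : j + c + (j + 1) - 1 = j + c + j := by omega
  rw [e1, e2, e3]
  have e4 : q ^ (((j + c : ℕ) : ℤ) + 1 - 2 * ((j + 1 : ℕ) : ℤ) - ((j + 1 : ℕ) : ℤ) * ((j + c : ℕ) : ℤ)) =
      (q ^ (2 * j + 1))⁻¹ * q ^ (-((j * (j + c) : ℕ) : ℤ)) := by
    rw [← zpow_natCast q (2 * j + 1), ← zpow_neg, ← zpow_add₀ q_ne]
    congr 1
    push_cast
    ring
  rw [e4]
  have e5 : 2 * (j + 1) = 2 * j + 2 := by ring
  rw [e5]
  ring

theorem star (N m j : ℕ) : dj j * pj j N * br N m j =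
    dj j * pj j N * Fj m j - dj (j + 1) * pj (j + 1) N * Fj m (j + 1) := by
  rcases Nat.lt_or_ge m j with h | h
  · rcases Nat.eq_or_lt_of_le (show m + 1 ≤ j from h) with h1 | h1
    · subst h1
      have h2 : Fj m (m + 1 + 1) = 0 := by rw [Fj, if_neg (by omega)]
      rw [h2, mul_zero, sub_zero]
      congr 1
      rw [br, pj_zero (show m - 1 < m + 1 by omega), pj_zero (show m < m + 1 by omega)]
      have h3 := Fj_succ m 0
      have e0 : m + 0 = m := rfl
      rw [e0] at h3
      rw [h3]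
      have h4 : pj (m + 1) (m + 1) = q ^ (-(((m + 1) * (m + 1) : ℕ) : ℤ)) * qf (2 * m + 2) := by
        have := pj_eq (m + 1) 0
        rw [show m + 1 + 0 = m + 1 from rfl] at this
        rw [this, qf_zero]
        have : 2 * (m + 1) + 0 = 2 * m + 2 := by ring
        rw [this]; ring
      have h5 : pj m m = q ^ (-((m * m : ℕ) : ℤ)) * qf (2 * m) := by
        have := pj_eq m 0
        rw [show m + 0 = m from rfl] at this
        rw [this, qf_zero]
        have : 2 * m + 0 = 2 * m := by ring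
        rw [this]; ring
      rw [h4, h5]
      have e6 : q ^ (-(((m + 1) * (m + 1) : ℕ) : ℤ)) =
          (q ^ (2 * m + 1))⁻¹ * q ^ (-((m * m : ℕ) : ℤ)) := by
        rw [← zpow_natCast q (2 * m + 1), ← zpow_neg, ← zpow_add₀ q_ne]
        congr 1
        push_cast
        ring
      rw [e6, qf_succ (2 * m + 1), qf_succ (2 * m)]
      have e7 : 2 * m + 1 + 1 = 2 * m + 2 := by ring
      rw [e7]
      ring
    · have h2 : Fj m j = 0 := by rw [Fj, if_neg (by omega)]
      have h3 : Fj m (j + 1) = 0 := by rw [Fj, if_neg (by omega)]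
      rw [h2, h3, br, pj_zero (show m + 1 < j by omega), pj_zero (show m - 1 < j by omega),
        pj_zero (show m < j by omega)]
      ring
  · obtain ⟨c, rfl⟩ := Nat.exists_eq_add_of_le h
    have hd : dj (j + 1) * pj (j + 1) N * Fj (j + c) (j + 1) = dj j * pj j N *
        ((1 + q ^ j) * (1 + q ^ (j + 1)) * (qn (2 * (j + c) + 1) / qn (2 * j + 1)) *
        (xx N - xx j) * pj j (j + c)) := by
      rw [Fj_succ, ← pj_succ, dj_succ]
      have := qn_succ_ne (2 * j)
      have := qn_succ_ne j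
      have h8 : qn (2 * j + 2) ≠ 0 := qn_ne_zero (by omega)
      have := pow_ne_zero (2 * j + 1) q_ne
      field_simp
    rcases Nat.eq_zero_or_pos (j + c) with h1 | h1
    · have hj : j = 0 := by omega
      have hc : c = 0 := by omega
      subst hj
      subst hc
      rw [hd]
      rw [← mul_sub]
      congr 1
      have h2 : Fj (0 + 0) 0 = 0 := by
        rw [Fj, if_pos (by omega), Nat.mul_zero, qn_zero]; ring
      rw [h2, br]
      have e0 : (0 : ℕ) + 0 = 0 := rfl
      simp only [e0, pj_zero_left, qn_zero, am, am', xx_zero, Nat.sub_self, Nat.mul_zero,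
        Nat.zero_add, qn_one, pow_zero, pow_one]
      have hs : q ^ (-(N : ℤ)) * (qn (N + 1) ^ 2 + q * qn N ^ 2) =
          1 + (1 + q) * xx N := by
        have h1 : qn (N + 1) = qn N + q ^ N := qn_succ N
        have h2 : qn (N + 1) = 1 + q * qn N := by
          rw [add_comm N 1, qn_add, qn_one, pow_one]
        have hz := zinv N
        rw [xx]
        have h3 : qn (N + 1) ^ 2 + q * qn N ^ 2 = q ^ N + (1 + q) * (qn N * qn (N + 1)) := by
          have h4 : q ^ N = qn (N + 1) - qn N := by rw [h1]; ring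
          have h5 : q ^ N * (qn (N + 1) - q * qn N) = q ^ N := by rw [h2]; ring
          rw [h4] at h5
          linear_combination h5 - h4
        rw [h3]
        linear_combination hz
      have hx : xx N = q ^ (-(N : ℤ)) * (qn N * qn (N + 1)) := rfl
      linear_combination (-1) * hs + (1 + q) * hx
    · rw [hd, br_eq N j c h1]
      ring

theorem PP_rec (N m : ℕ) : qn (m + 1) ^ 2 * PP N (m + 1) =
    q ^ (-(N : ℤ)) * (am N m * am' N m) * PP N m + q * am N m * UU N m + am' N m * VV N m +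
      q * (qn m ^ 2 * PP N (m - 1)) := by
  have h1 : ∑ j ∈ range (N + 1), dj j * pj j N * br N m j = 0 := by
    rw [Finset.sum_congr rfl fun j _ => star N m j]
    rw [Finset.sum_range_sub' (fun j => dj j * pj j N * Fj m j)]
    rw [pj_zero (show N < N + 1 by omega)]
    have h2 : Fj m 0 = 0 := by
      rw [Fj, if_pos (by omega), Nat.mul_zero, qn_zero]; ring
    rw [h2]; ring
  have h3 : ∑ j ∈ range (N + 1), dj j * pj j N * br N m j =
      qn (m + 1) ^ 2 * PP N (m + 1) - q * (qn m ^ 2 * PP N (m - 1)) -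
        q ^ (-(N : ℤ)) * (am N m * am' N m) * PP N m - q * am N m * UU N m - am' N m * VV N m := by
    rw [PP, PP, PP, UU, VV, Finset.mul_sum, Finset.mul_sum, Finset.mul_sum, Finset.mul_sum,
      Finset.mul_sum, Finset.mul_sum, ← Finset.sum_sub_distrib, ← Finset.sum_sub_distrib,
      ← Finset.sum_sub_distrib, ← Finset.sum_sub_distrib]
    refine Finset.sum_congr rfl fun j _ => ?_
    rw [br]
    ring
  rw [h1] at h3
  linear_combination -h3

theorem prod_formula (N : ℕ) : ∀ m : ℕ,
    PP N m = q ^ (-((m * N : ℕ) : ℤ)) * (yy N m * zz N m) ∧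
    PP N (m - 1) = q ^ (-(((m - 1) * N : ℕ) : ℤ)) * (yy N (m - 1) * zz N (m - 1)) ∧
    UU N m = q ^ (-((m * N : ℕ) : ℤ)) * (qn m * yy N m * zz N (m - 1)) ∧
    VV N m = q ^ (-((m * N : ℕ) : ℤ)) * (qn m * yy N (m - 1) * zz N m) := by
  intro m
  induction m with
  | zero =>
    simp [PP_zero, UU_zero, VV_zero, yy_zero, zz_zero, qn_zero]
  | succ m ih =>
    obtain ⟨i1, i2, i3, i4⟩ := ih
    have hy := yy_rec N m
    have hz := zz_rec N m
    have e1 : q ^ (-(((m + 1) * N : ℕ) : ℤ)) = q ^ (-(N : ℤ)) * q ^ (-((m * N : ℕ) : ℤ)) := by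
      rw [← zpow_add₀ q_ne]
      congr 1
      push_cast
      ring
    have hzi := zinv N
    rw [Nat.add_sub_cancel]
    have hU : UU N (m + 1) = q ^ (-(((m + 1) * N : ℕ) : ℤ)) *
        (qn (m + 1) * yy N (m + 1) * zz N m) := by
      rw [UU_succ, i1, i4, e1, hy, am]
      linear_combination (-(q ^ (-((m * N : ℕ) : ℤ)) * qn m * yy N (m - 1) * zz N m)) * hzi
    have hV : VV N (m + 1) = q ^ (-(((m + 1) * N : ℕ) : ℤ)) *
        (qn (m + 1) * yy N m * zz N (m + 1)) := by
      rw [VV_succ, i1, i3, e1, am']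
      rw [pow_succ] at hz
      linear_combination (-(q ^ (-((m * N : ℕ) : ℤ)) * qn m * yy N m * zz N (m - 1) * q)) * hzi -
        (q ^ (-(N : ℤ)) * q ^ (-((m * N : ℕ) : ℤ)) * yy N m) * hz
    refine ⟨?_, i1, hU, hV⟩
    have hne : qn (m + 1) ^ 2 ≠ 0 := pow_ne_zero _ (qn_succ_ne m)
    apply mul_left_cancel₀ hne
    rw [PP_rec, i1, i3, i4, e1]
    have h5 : q * (qn m ^ 2 * PP N (m - 1)) =
        q * q ^ (-(N : ℤ)) * q ^ (-((m * N : ℕ) : ℤ)) * (q ^ N) ^ 2 *
          (qn m ^ 2 * (yy N (m - 1) * zz N (m - 1))) := by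
      rcases Nat.eq_zero_or_pos m with h6 | h6
      · subst h6
        rw [qn_zero]; ring
      · rw [i2]
        have e2 : q ^ (-(((m - 1) * N : ℕ) : ℤ)) =
            q ^ (-(N : ℤ)) * q ^ (-((m * N : ℕ) : ℤ)) * (q ^ N) ^ 2 := by
          obtain ⟨k, rfl⟩ := Nat.exists_eq_add_of_lt h6
          rw [← pow_mul, ← zpow_natCast q (N * 2), ← zpow_add₀ q_ne, ← zpow_add₀ q_ne]
          congr 1
          have : 0 + k + 1 - 1 = k := by omega
          rw [this]
          push_cast
          ring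
        rw [e2]
        ring
    rw [h5]
    have h6 : qn (m + 1) ^ 2 * (q ^ (-(N : ℤ)) * q ^ (-((m * N : ℕ) : ℤ)) *
        (yy N (m + 1) * zz N (m + 1))) =
        q ^ (-(N : ℤ)) * q ^ (-((m * N : ℕ) : ℤ)) * ((qn (m + 1) * yy N (m + 1)) *
          (qn (m + 1) * zz N (m + 1))) := by ring
    rw [h6, hy, hz]
    have e3 : q ^ (N + 1) = q ^ N * q := pow_succ q N
    rw [e3, am, am']
    linear_combination (-(q ^ (-((m * N : ℕ) : ℤ)) * (q * (q ^ m * qn (N + 1) + qn N) *
      (qn m * yy N m * zz N (m - 1)) + (qn (N + 1) + q ^ (m + 1) * qn N) *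
      (qn m * yy N (m - 1) * zz N m)))) * hzi

/-- the coefficient of the basis element -/
def cj (m j : ℕ) : K := dj j * qf j ^ 2 * pj j m

theorem PP_eq (N m : ℕ) : PP N m = ∑ j ∈ range (m + 1), cj m j * bet j N := by
  have key : ∀ M, N ≤ M → ∑ j ∈ range (N + 1), dj j * pj j N * pj j m =
      ∑ j ∈ range (M + 1), dj j * pj j N * pj j m := by
    intro M hM
    refine Finset.sum_subset ?_ ?_
    · intro x hx
      rw [Finset.mem_range] at hx ⊢
      omega
    · intro x _ hx
      rw [Finset.mem_range] at hx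
      rw [pj_zero (show N < x by omega)]; ring
  have key2 : ∀ M, m ≤ M → ∑ j ∈ range (m + 1), dj j * pj j N * pj j m =
      ∑ j ∈ range (M + 1), dj j * pj j N * pj j m := by
    intro M hM
    refine Finset.sum_subset ?_ ?_
    · intro x hx
      rw [Finset.mem_range] at hx ⊢
      omega
    · intro x _ hx
      rw [Finset.mem_range] at hx
      rw [pj_zero (show m < x by omega)]; ring
  rw [PP, key (max N m) (le_max_left _ _), ← key2 (max N m) (le_max_right _ _)]
  refine Finset.sum_congr rfl fun j _ => ?_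
  rw [cj, bet]
  have := qf_ne j
  field_simp

theorem uj_NN (j : ℕ) : IsNN (uj j) := by
  induction j with
  | zero => rw [uj, Finset.prod_range_zero]; exact IsG.one
  | succ j ih =>
    rw [uj_succ]
    exact ih.mul ((IsG.one.add (IsG.q_pow _)).mul (IsG.one.add (IsG.q_pow _)))

theorem cj_NN (m j : ℕ) : IsNN (cj m j) := by
  rcases Nat.lt_or_ge m j with h | h
  · rw [cj, pj_zero h, mul_zero]; exact IsG.zero
  · obtain ⟨c, rfl⟩ := Nat.exists_eq_add_of_le h
    have h1 : cj (j + c) j = q ^ (j ^ 2) * q ^ (-((j * (j + c) : ℕ) : ℤ)) * (uj j *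
        qb (2 * j + c) (2 * j)) := by
      rw [cj, dj, pj_eq, qb_eq (by omega)]
      have e1 : 2 * j + c - 2 * j = c := by omega
      rw [e1]
      have := qf_ne j
      have := qf_ne c
      have := qf_ne (2 * j)
      field_simp
    rw [h1]
    exact ((IsG.q_pow _).mul (IsG.q_zpow _)).mul ((uj_NN j).mul (IsG.qb _ _))

/-- `P_k` -/
def Pk (m k : ℕ) : K := q ^ (-((m * k : ℕ) : ℤ)) * (yy k m * zz k m)

theorem Pk_eq (m k : ℕ) : Pk m k = PP k m := ((prod_formula k m).1).symm

theorem Pk_cone (m : ℕ) : InCone (Pk m) := by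
  refine ⟨m + 1, cj m, cj_NN m, fun k => ?_⟩
  rw [Pk_eq, PP_eq]

theorem B_NN (m n r : ℕ) (hn : 1 ≤ n) :
    IsNN ((∑ k ∈ range n, qn (2 * k + 1) * q ^ (-(k : ℤ)) * Pk m k ^ r) / qn n) :=
  coneB ((Pk_cone m).pow r) n hn

theorem C_NN (m n r : ℕ) (hn : 1 ≤ n) :
    IsNN ((∑ k ∈ range n, (-1) ^ (n - 1 - k) *
      (qn (2 * k + 1) * q ^ (k * (k - 1) / 2) * Pk m k ^ r)) / qn n) :=
  coneC ((Pk_cone m).pow r) n hn

/-- `u_j / [2]` is nonnegative for `j ≥ 1` -/
theorem uj_div (j : ℕ) : IsNN (uj (j + 1) / qn 2) := by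
  have h2 : qn 2 = 1 + q := by rw [show 2 = 1 + 1 from rfl, qn_succ, qn_one, pow_one]
  have h2' : qn 2 ≠ 0 := qn_succ_ne 1
  induction j with
  | zero =>
    have : uj (0 + 1) / qn 2 = 1 + 1 := by
      rw [uj_succ, uj, Finset.prod_range_zero, pow_zero, Nat.zero_add, pow_one]
      rw [h2] at h2' ⊢
      field_simp
    rw [this]
    exact IsG.one.add IsG.one
  | succ j ih =>
    rw [uj_succ]
    have : uj (j + 1) * ((1 + q ^ (j + 1)) * (1 + q ^ (j + 1 + 1))) / qn 2 =
        uj (j + 1) / qn 2 * ((1 + q ^ (j + 1)) * (1 + q ^ (j + 1 + 1))) := by ring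
    rw [this]
    exact ih.mul ((IsG.one.add (IsG.q_pow _)).mul (IsG.one.add (IsG.q_pow _)))

/-- the `m`-part of the coefficient -/
def Rj (m j : ℕ) : K := qn m * qn (m + 1) * (pj j m / (qf (2 * j) * qn (j + 1)))

theorem Rj_NN (m j : ℕ) : IsNN (Rj m j) := by
  rcases Nat.lt_or_ge m j with h | h
  · rw [Rj, pj_zero h, zero_div, mul_zero]; exact IsG.zero
  · obtain ⟨c, rfl⟩ := Nat.exists_eq_add_of_le h
    have hid : qn (j + c) * qn (j + c + 1) = qn c * qn (2 * j + c + 1) +
        q ^ c * (qn j * qn (j + 1)) := by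
      rw [← xx_ident j c]; ring
    have h1 : Rj (j + c) j = q ^ (-((j * (j + c) : ℕ) : ℤ)) *
        (qn (2 * j + 1) * (1 + q ^ (j + 1)) * qb (2 * j + c + 1) (2 * j + 2) +
          q ^ c * qn j * qb (2 * j + c) (2 * j)) := by
      rw [Rj, hid, pj_eq]
      have h2 : qn (2 * j + 2) = qn (j + 1) * (1 + q ^ (j + 1)) := by
        have : 2 * j + 2 = (j + 1) + (j + 1) := by ring
        rw [this, qn_add]; ring
      have h3 : qn c * qn (2 * j + c + 1) * qf (2 * j + c) / (qf c * qf (2 * j)) =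
          qn (2 * j + 1) * qn (2 * j + 2) * qb (2 * j + c + 1) (2 * j + 2) := by
        cases c with
        | zero =>
          rw [qn_zero, qb_eq_zero (show 2 * j + 0 + 1 < 2 * j + 2 by omega)]; ring
        | succ c =>
          rw [qb_eq (by omega)]
          have e1 : 2 * j + (c + 1) + 1 - (2 * j + 2) = c := by omega
          rw [e1, qf_succ (2 * j + (c + 1)), qf_succ c, qf_succ (2 * j + 1), qf_succ (2 * j)]
          have := qf_ne c
          have := qf_ne (2 * j)
          have := qn_succ_ne c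
          have := qn_succ_ne (2 * j)
          have := qn_succ_ne (2 * j + 1)
          have e2 : 2 * j + 1 + 1 = 2 * j + 2 := by ring
          rw [e2] at this ⊢
          field_simp
      have h4 : qb (2 * j + c) (2 * j) = qf (2 * j + c) / (qf c * qf (2 * j)) := by
        rw [qb_eq (by omega)]
        have e1 : 2 * j + c - 2 * j = c := by omega
        rw [e1, mul_comm (qf (2 * j))]
      have h5 : qn (2 * j + 1) * (1 + q ^ (j + 1)) * qb (2 * j + c + 1) (2 * j + 2) =
          qn c * qn (2 * j + c + 1) * qf (2 * j + c) / (qf c * qf (2 * j)) / qn (j + 1) := by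
        rw [h3, h2]
        have := qn_succ_ne j
        field_simp
      rw [h5, h4]
      have := qf_ne c
      have := qf_ne (2 * j)
      have := qn_succ_ne j
      field_simp
    rw [h1]
    exact (IsG.q_zpow _).mul ((((IsG.qn _).mul (IsG.one.add (IsG.q_pow _))).mul (IsG.qb _ _)).add
      (((IsG.q_pow _).mul (IsG.qn _)).mul (IsG.qb _ _)))

theorem A_NN (m n : ℕ) (hn : 1 ≤ n) :
    IsNN (qn m * qn (m + 1) / (qn 2 * qn n ^ 2) *
      ∑ k ∈ range n, qn (2 * k + 1) * q ^ (-(k : ℤ)) * Pk m k) := by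
  have hn0 : qn n ≠ 0 := qn_ne_zero (by omega)
  have h2' : qn 2 ≠ 0 := qn_succ_ne 1
  have h1 : qn m * qn (m + 1) / (qn 2 * qn n ^ 2) *
      ∑ k ∈ range n, qn (2 * k + 1) * q ^ (-(k : ℤ)) * Pk m k =
      ∑ j ∈ range (m + 1), q ^ (j ^ 2) * (uj j / qn 2) * Rj m j *
        (fB j n / qn n / qf j ^ 2 * (qn (j + 1) / qn n)) := by
    have h3 : ∀ k, qn (2 * k + 1) * q ^ (-(k : ℤ)) * Pk m k = ∑ j ∈ range (m + 1),
        dj j * pj j m * (qn (2 * k + 1) * q ^ (-(k : ℤ)) * pj j k) := by
      intro k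
      rw [Pk_eq, PP_eq, Finset.mul_sum]
      refine Finset.sum_congr rfl fun j _ => ?_
      rw [cj, bet]
      have := qf_ne j
      field_simp
    rw [Finset.sum_congr rfl fun k _ => h3 k, Finset.sum_comm, Finset.mul_sum]
    refine Finset.sum_congr rfl fun j _ => ?_
    rw [← Finset.mul_sum, sumB, dj, Rj]
    have := qf_ne j
    have := qf_ne (2 * j)
    have := qn_succ_ne j
    field_simp
  rw [h1]
  refine IsG.sum _ _ fun j _ => ?_
  have h4 : IsNN (fB j n / qn n / qf j ^ 2 * (qn (j + 1) / qn n)) := by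
    rcases Nat.lt_or_ge j n with h | h
    · obtain ⟨c, rfl⟩ := Nat.exists_eq_add_of_lt h
      have h1 : fB j (j + c + 1) / qn (j + c + 1) / qf j ^ 2 * (qn (j + 1) / qn (j + c + 1)) =
          q ^ ((j : ℤ) + 1 - ((j + c + 1 : ℕ) : ℤ)) * q ^ (-((j * (j + (c + 1)) : ℕ) : ℤ)) *
            (qb (j + c + 1 + j) j * qb (j + c) j) := by
        rw [fB, qb_eq (by omega), qb_eq (by omega)]
        have e1 : j + c + 1 - j = c + 1 := by omega
        have e2 : j + c + 1 + j - j = j + c + 1 := by omega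
        have e3 : j + c - j = c := by omega
        rw [e1, e2, e3]
        have e4 : pj j (j + c + 1) = q ^ (-((j * (j + (c + 1)) : ℕ) : ℤ)) *
            (qf (2 * j + (c + 1)) / qf (c + 1)) := pj_eq j (c + 1)
        rw [e4]
        have e5 : j + c + 1 + j = 2 * j + (c + 1) := by ring
        rw [e5, qf_succ c, qf_succ (j + c)]
        have := qf_ne c
        have := qf_ne j
        have := qf_ne (j + c)
        have := qn_succ_ne c
        have := qn_succ_ne j
        have := qn_succ_ne (j + c)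
        field_simp
      rw [h1]
      exact ((IsG.q_zpow _).mul (IsG.q_zpow _)).mul ((IsG.qb _ _).mul (IsG.qb _ _))
    · have h1 : fB j n = 0 := by
        rw [fB]
        have : n - j = 0 := by omega
        rw [this, qn_zero]; ring
      rw [h1, zero_div, zero_div, zero_mul]
      exact IsG.zero
  refine IsG.mul ?_ h4
  cases j with
  | zero =>
    have h5 : q ^ (0 ^ 2) * (uj 0 / qn 2) * Rj m 0 = qb (m + 1) 2 := by
      rw [uj, Finset.prod_range_zero, Rj, pj_zero_left, Nat.mul_zero, qf_zero, qn_one]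
      cases m with
      | zero => rw [qn_zero, qb_eq_zero (show 0 + 1 < 2 by omega)]; ring
      | succ m =>
        rw [qb_eq (by omega)]
        have e1 : m + 1 + 1 - 2 = m := by omega
        rw [e1, qf_succ (m + 1), qf_succ m]
        have e2 : qf 2 = qn 2 := by
          rw [show 2 = 1 + 1 from rfl, qf_succ, show 1 = 0 + 1 from rfl, qf_succ, qf_zero]
          rw [show 0 + 1 = 1 from rfl, qn_one]; ring
        rw [e2]
        have := qf_ne m
        field_simp
        norm_num
    rw [h5]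
    exact IsG.qb _ _
  | succ j =>
    exact ((IsG.q_pow _).mul (uj_div j)).mul (Rj_NN m (j + 1))

end

end Pool.Agent.R859.QD
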