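import Pool.Agent.R859.QB.Merge

/-!
# Newton basis in `x_k = q^(-k) [k] [k+1]`
-/

set_option autoImplicit false

open Finset

namespace Pool.Agent.R859.QD

open Pool.Agent.R859.QB

noncomputable section

/-- `x_k = q^(-k) [k] [k+1]` -/
def xx (k : ℕ) : K := q ^ (-(k : ℤ)) * (qn k * qn (k + 1))

theorem isG_xx {R : Type} [CommSemiring R] {f : R →+* ℚ} (k : ℕ) : IsG f (xx k) :=
  (IsG.q_zpow _).mul ((IsG.qn k).mul (IsG.qn _))

theorem one_sub_q_ne : (1 - q) ≠ 0 := by
  intro h
  have h1 := one_sub_q_mul 1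
  have h2 : (1 : K) = RatFunc.X := sub_eq_zero.1 h
  rw [← RatFunc.algebraMap_X, ← map_one (algebraMap (Polynomial ℚ) (RatFunc ℚ))] at h2
  have h6 := RatFunc.algebraMap_injective ℚ h2
  have h7 := congrArg (fun p : Polynomial ℚ => p.coeff 0) h6
  simp at h7

theorem qn_eq (n : ℕ) : qn n = (1 - q ^ n) / (1 - q) := by
  rw [eq_div_iff one_sub_q_ne, mul_comm]
  exact one_sub_q_mul n

theorem one_sub_pow_ne {n : ℕ} (hn : n ≠ 0) : (1 - q ^ n) ≠ 0 := by
  rw [← one_sub_q_mul]
  exact mul_ne_zero one_sub_q_ne (qn_ne_zero hn)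

theorem xx_ident (i c : ℕ) :
    qn (i + c) * qn (i + c + 1) - q ^ c * (qn i * qn (i + 1)) = qn c * qn (2 * i + c + 1) := by
  rw [qn_eq, qn_eq, qn_eq, qn_eq, qn_eq, qn_eq]
  have := one_sub_q_ne
  field_simp
  ring

theorem xx_sub (i c : ℕ) :
    xx (i + c) - xx i = q ^ (-((i + c : ℕ) : ℤ)) * (qn c * qn (2 * i + c + 1)) := by
  rw [← xx_ident, xx, xx]
  have h1 : q ^ (-(i : ℤ)) = q ^ (-((i + c : ℕ) : ℤ)) * q ^ c := by
    rw [← zpow_natCast q c, ← zpow_add₀ q_ne]
    congr 1
    push_cast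
    ring
  rw [h1]
  ring

/-- Newton polynomials `∏_{i<j} (x_m - x_i)` -/
def pj (j m : ℕ) : K :=
  if j ≤ m then q ^ (-((j * m : ℕ) : ℤ)) * (qf (m + j) / qf (m - j)) else 0

theorem pj_zero {j m : ℕ} (h : m < j) : pj j m = 0 := by rw [pj, if_neg (by omega)]

theorem pj_zero_left (m : ℕ) : pj 0 m = 1 := by
  rw [pj, if_pos (Nat.zero_le _)]
  have := qf_ne m
  simp [this]

theorem pj_eq (j c : ℕ) :
    pj j (j + c) = q ^ (-((j * (j + c) : ℕ) : ℤ)) * (qf (2 * j + c) / qf c) := by
  rw [pj, if_pos (by omega)]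
  have e1 : j + c + j = 2 * j + c := by ring
  have e2 : j + c - j = c := by omega
  rw [e1, e2]

theorem pj_succ (j m : ℕ) : (xx m - xx j) * pj j m = pj (j + 1) m := by
  rcases Nat.lt_or_ge m j with h | h
  · rw [pj_zero h, pj_zero (by omega)]; ring
  · obtain ⟨c, rfl⟩ := Nat.exists_eq_add_of_le h
    cases c with
    | zero => rw [pj_zero (show j + 0 < j + 1 by omega), Nat.add_zero, sub_self]; ring
    | succ c =>
      rw [xx_sub, pj_eq]
      have e1 : j + (c + 1) = (j + 1) + c := by ring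
      rw [show pj (j + 1) (j + (c + 1)) = pj (j + 1) ((j + 1) + c) by rw [e1], pj_eq]
      have e2 : 2 * (j + 1) + c = (2 * j + (c + 1)) + 1 := by ring
      rw [e2, qf_succ (2 * j + (c + 1)), qf_succ c]
      have e3 : q ^ (-(((j + 1) * (j + 1 + c) : ℕ) : ℤ)) =
          q ^ (-((j + (c + 1) : ℕ) : ℤ)) * q ^ (-((j * (j + (c + 1)) : ℕ) : ℤ)) := by
        rw [← zpow_add₀ q_ne]
        congr 1
        push_cast
        ring
      rw [e3]
      have := qf_ne c
      have := qn_succ_ne c
      field_simp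

/-- the basis `[j]!^(-2) π_j` -/
def bet (j k : ℕ) : K := pj j k / qf j ^ 2

theorem bet_zero (k : ℕ) : bet 0 k = 1 := by
  rw [bet, pj_zero_left, qf_zero]; simp

theorem bet_succ (i k : ℕ) : qn (i + 1) ^ 2 * bet (i + 1) k = (xx k - xx i) * bet i k := by
  rw [bet, bet, ← pj_succ, qf_succ]
  have := qf_ne i
  have := qn_succ_ne i
  field_simp

/-- structure constants -/
def cc (i j l : ℕ) : K :=
  q ^ (-((l : ℤ) * ((i : ℤ) + j - l))) * (qb (i + j) l * qb l i * qb l j)

theorem isG_cc {R : Type} [CommSemiring R] {f : R →+* ℚ} (i j l : ℕ) : IsG f (cc i j l) :=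
  (IsG.q_zpow _).mul (((IsG.qb _ _).mul (IsG.qb _ _)).mul (IsG.qb _ _))

theorem qn_ident2 (a b d : ℕ) :
    qn (b + d) * qn (a + b + 2 * d) = q ^ d * (qn (a + b + d) * qn b) +
      qn (a + 2 * b + 2 * d) * qn d := by
  rw [qn_eq, qn_eq, qn_eq, qn_eq, qn_eq, qn_eq]
  have := one_sub_q_ne
  field_simp
  ring

theorem cc_zero_right {i j l : ℕ} (h : l < j) : cc i j l = 0 := by
  rw [cc, qb_eq_zero h]; ring

theorem cc_zero_left {i j l : ℕ} (h : l < i) : cc i j l = 0 := by
  rw [cc, qb_eq_zero h]; ring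

theorem cc_zero_top {i j l : ℕ} (h : i + j < l) : cc i j l = 0 := by
  rw [cc, qb_eq_zero h]; ring

/-- factorial form of the structure constants -/
theorem cc_fact (a b d : ℕ) :
    cc (b + d) (a + d) (a + b + d) = q ^ (-(((a + b + d : ℕ) : ℤ) * d)) *
      (qf (a + b + 2 * d) * qf (a + b + d) / (qf d * qf (b + d) * qf a * qf (a + d) * qf b)) := by
  rw [cc, qb_eq (by omega), qb_eq (by omega), qb_eq (by omega)]
  have e1 : b + d + (a + d) = a + b + 2 * d := by ring
  have e2 : a + b + 2 * d - (a + b + d) = d := by omega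
  have e3 : a + b + d - (b + d) = a := by omega
  have e4 : a + b + d - (a + d) = b := by omega
  rw [e1, e2, e3, e4]
  have e5 : -(((a + b + d : ℕ) : ℤ) * (((b + d : ℕ) : ℤ) + ((a + d : ℕ) : ℤ) -
      ((a + b + d : ℕ) : ℤ))) = -(((a + b + d : ℕ) : ℤ) * d) := by
    push_cast; ring
  rw [e5]
  have := qf_ne (a + b + d)
  have := qf_ne (b + d)
  have := qf_ne (a + d)
  have := qf_ne a
  have := qf_ne b
  have := qf_ne d
  field_simp

theorem cc_rec (i j l : ℕ) :
    qn (i + 1) ^ 2 * cc (i + 1) j (l + 1) =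
      qn (l + 1) ^ 2 * cc i j l + (xx (l + 1) - xx i) * cc i j (l + 1) := by
  rcases Nat.lt_or_ge l i with h1 | h1
  · rw [cc_zero_left (show l + 1 < i + 1 by omega), cc_zero_left h1]
    rcases Nat.eq_or_lt_of_le (show l + 1 ≤ i from h1) with h2 | h2
    · rw [h2]; ring
    · rw [cc_zero_left h2]; ring
  rcases Nat.lt_or_ge (l + 1) j with h2 | h2
  · rw [cc_zero_right h2, cc_zero_right (show l < j by omega), cc_zero_right h2]; ring
  rcases Nat.lt_or_ge (i + j) l with h3 | h3
  · rw [cc_zero_top (show i + 1 + j < l + 1 by omega), cc_zero_top h3,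
      cc_zero_top (show i + j < l + 1 by omega)]; ring
  -- main region
  obtain ⟨a, ha⟩ := Nat.exists_eq_add_of_le h1
  obtain ⟨d, hd⟩ := Nat.exists_eq_add_of_le h3
  obtain ⟨b, hb⟩ := Nat.exists_eq_add_of_le h2
  have hj : j = a + d := by omega
  have hi1 : i + 1 = b + d := by omega
  have hl1 : l + 1 = a + b + d := by omega
  subst hj
  have hx : xx (l + 1) - xx i = q ^ (-((a + b + d : ℕ) : ℤ)) *
      (qn (a + 1) * qn (a + 2 * b + 2 * d)) := by
    have e1 : l + 1 = i + (a + 1) := by omega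
    have e2 : 2 * i + (a + 1) + 1 = a + 2 * b + 2 * d := by omega
    have e3 : i + (a + 1) = a + b + d := by omega
    rw [e1, xx_sub, e2, e3]
  set Cm : K := qf (i + (a + d)) * qf (a + b + d) / (qf d * qf i * qf a * qf (a + d) * qf b)
    with hCm
  have g1 : cc (i + 1) (a + d) (l + 1) * qn (i + 1) = q ^ (-(((a + b + d : ℕ) : ℤ) * d)) *
      (qn (a + b + 2 * d) * Cm) := by
    rw [hi1, hl1, cc_fact, hCm]
    have e1 : qf (a + b + 2 * d) = qf (i + (a + d)) * qn (a + b + 2 * d) := by
      have : a + b + 2 * d = (i + (a + d)) + 1 := by omega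
      rw [this, qf_succ]
    have e2 : qf (b + d) = qf i * qn (b + d) := by
      rw [← hi1, qf_succ]
    rw [e1, e2]
    have := qf_ne d
    have := qf_ne i
    have := qf_ne a
    have := qf_ne b
    have := qf_ne (a + d)
    have h9 : qn (b + d) ≠ 0 := qn_ne_zero (by omega)
    field_simp
  have g2 : qn (l + 1) * cc i (a + d) l = q ^ (-(((a + b + d : ℕ) : ℤ) * d)) * q ^ d *
      (qn b * Cm) := by
    cases b with
    | zero =>
      rw [qn_zero, cc_zero_right (show l < a + d by omega)]; ring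
    | succ b =>
      have f1 : i = b + d := by omega
      have f2 : l = a + b + d := by omega
      rw [f1, f2, cc_fact, hCm, f1]
      have e3 : q ^ (-(((a + (b + 1) + d : ℕ) : ℤ) * d)) * q ^ d =
          q ^ (-(((a + b + d : ℕ) : ℤ) * d)) := by
        rw [← zpow_natCast q d, ← zpow_add₀ q_ne]
        congr 1
        push_cast
        ring
      rw [e3]
      have e4 : b + d + (a + d) = a + b + 2 * d := by ring
      have e5 : a + (b + 1) + d = (a + b + d) + 1 := by ring
      rw [e4, e5, qf_succ (a + b + d), qf_succ b]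
      have := qf_ne d
      have := qf_ne (b + d)
      have := qf_ne a
      have := qf_ne b
      have := qf_ne (a + d)
      have := qn_succ_ne b
      field_simp
  have g3 : q ^ (-((a + b + d : ℕ) : ℤ)) * (qn (a + 1) * cc i (a + d) (l + 1)) =
      q ^ (-(((a + b + d : ℕ) : ℤ) * d)) * (qn d * Cm) := by
    cases d with
    | zero =>
      rw [qn_zero, cc_zero_top (show i + (a + 0) < l + 1 by omega)]; ring
    | succ d =>
      have f1 : i = b + d := by omega
      have f2 : a + (d + 1) = (a + 1) + d := by ring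
      have f3 : l + 1 = (a + 1) + b + d := by omega
      rw [f3, f1, f2, cc_fact, hCm, f1, f2]
      have e3 : q ^ (-((a + b + (d + 1) : ℕ) : ℤ)) * q ^ (-(((a + 1 + b + d : ℕ) : ℤ) * d)) =
          q ^ (-(((a + b + (d + 1) : ℕ) : ℤ) * ((d + 1 : ℕ) : ℤ))) := by
        rw [← zpow_add₀ q_ne]
        congr 1
        push_cast
        ring
      rw [← e3]
      have e4 : b + d + (a + 1 + d) = a + 1 + b + 2 * d := by ring
      have e5 : a + b + (d + 1) = a + 1 + b + d := by ring
      rw [e4, e5, qf_succ d, qf_succ a]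
      have := qf_ne d
      have := qf_ne (b + d)
      have := qf_ne a
      have := qf_ne b
      have := qf_ne (a + 1 + d)
      have := qn_succ_ne a
      have := qn_succ_ne d
      field_simp
  have hid := qn_ident2 a b d
  rw [hx]
  have hi1' : qn (i + 1) = qn (b + d) := by rw [hi1]
  have hl1' : qn (l + 1) = qn (a + b + d) := by rw [hl1]
  calc qn (i + 1) ^ 2 * cc (i + 1) (a + d) (l + 1)
      = qn (i + 1) * (cc (i + 1) (a + d) (l + 1) * qn (i + 1)) := by ring
    _ = q ^ (-(((a + b + d : ℕ) : ℤ) * d)) * Cm * (qn (b + d) * qn (a + b + 2 * d)) := by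
        rw [g1, hi1']; ring
    _ = qn (a + b + d) * (q ^ (-(((a + b + d : ℕ) : ℤ) * d)) * q ^ d * (qn b * Cm)) +
        qn (a + 2 * b + 2 * d) * (q ^ (-(((a + b + d : ℕ) : ℤ) * d)) * (qn d * Cm)) := by
        rw [hid]; ring
    _ = _ := by
        rw [← g2, ← g3, ← hl1']; ring

theorem bet_mul : ∀ (i j k : ℕ),
    bet i k * bet j k = ∑ l ∈ range (i + j + 1), cc i j l * bet l k := by
  intro i
  induction i with
  | zero =>
    intro j k
    rw [bet_zero, one_mul, Nat.zero_add, Finset.sum_range_succ, Finset.sum_eq_zero, zero_add]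
    · rw [cc, Nat.zero_add, qb_self, qb_zero]
      have : -((j : ℤ) * (((0 : ℕ) : ℤ) + j - j)) = 0 := by push_cast; ring
      rw [this]; simp
    · intro l hl
      rw [cc_zero_right (Finset.mem_range.1 hl)]; ring
  | succ i ih =>
    intro j k
    have h0 : qn (i + 1) ^ 2 ≠ 0 := pow_ne_zero _ (qn_succ_ne i)
    apply mul_left_cancel₀ h0
    have h1 : qn (i + 1) ^ 2 * (bet (i + 1) k * bet j k) =
        (xx k - xx i) * (bet i k * bet j k) := by
      rw [← mul_assoc, bet_succ]; ring
    rw [h1, ih, Finset.mul_sum, Finset.mul_sum]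
    have h2 : ∀ l, (xx k - xx i) * (cc i j l * bet l k) =
        qn (l + 1) ^ 2 * cc i j l * bet (l + 1) k + (xx l - xx i) * cc i j l * bet l k := by
      intro l
      have := bet_succ l k
      linear_combination (-(cc i j l)) * this
    rw [Finset.sum_congr rfl fun l _ => h2 l, Finset.sum_add_distrib]
    have e1 : i + 1 + j + 1 = (i + j + 1) + 1 := by ring
    rw [e1, Finset.sum_range_succ' _ (i + j + 1)]
    have h3 : ∑ l ∈ range (i + j + 1), (xx l - xx i) * cc i j l * bet l k =
        ∑ l ∈ range (i + j + 1), (xx (l + 1) - xx i) * cc i j (l + 1) * bet (l + 1) k := by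
      have h4 := Finset.sum_range_succ' (fun l => (xx l - xx i) * cc i j l * bet l k) (i + j + 1)
      have h5 := Finset.sum_range_succ (fun l => (xx l - xx i) * cc i j l * bet l k) (i + j + 1)
      rw [h5, cc_zero_top (show i + j < i + j + 1 by omega)] at h4
      have h6 : (xx 0 - xx i) * cc i j 0 * bet 0 k = 0 := by
        cases i with
        | zero => ring
        | succ i => rw [cc_zero_left (Nat.succ_pos i)]; ring
      rw [h6] at h4
      linear_combination h4
    rw [h3, cc_zero_left (Nat.succ_pos i), ← Finset.sum_add_distrib]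
    rw [zero_mul, mul_zero, add_zero]
    refine Finset.sum_congr rfl fun l _ => ?_
    have := cc_rec i j l
    linear_combination (-(bet (l + 1) k)) * this

/-- finite nonnegative combinations of the basis -/
def InCone (f : ℕ → K) : Prop :=
  ∃ (L : ℕ) (A : ℕ → K), (∀ l, IsNN (A l)) ∧ ∀ k, f k = ∑ l ∈ range L, A l * bet l k

theorem InCone.zero : InCone (fun _ => 0) := ⟨0, fun _ => 0, fun _ => IsG.zero, fun _ => by simp⟩

theorem InCone.bet (j : ℕ) {c : K} (hc : IsNN c) : InCone (fun k => c * bet j k) := by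
  refine ⟨j + 1, fun l => if l = j then c else 0, fun l => ?_, fun k => ?_⟩
  · show IsNN (if l = j then c else 0)
    split_ifs
    · exact hc
    · exact IsG.zero
  · rw [Finset.sum_range_succ, Finset.sum_eq_zero, zero_add]
    · dsimp only
      rw [if_pos rfl]
    · intro l hl
      dsimp only
      rw [if_neg (by have := Finset.mem_range.1 hl; omega), zero_mul]

theorem InCone.add {f g : ℕ → K} (hf : InCone f) (hg : InCone g) :
    InCone (fun k => f k + g k) := by
  obtain ⟨L, A, hA, hf⟩ := hf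
  obtain ⟨M, B, hB, hg⟩ := hg
  refine ⟨L + M, fun l => (if l < L then A l else 0) + (if l < M then B l else 0),
    fun l => ?_, fun k => ?_⟩
  · apply IsG.add
    · split_ifs
      · exact hA l
      · exact IsG.zero
    · split_ifs
      · exact hB l
      · exact IsG.zero
  · have key : ∀ (L M : ℕ) (A : ℕ → K), ∑ l ∈ range (L + M), (if l < L then A l else 0) *
        Pool.Agent.R859.QD.bet l k = ∑ l ∈ range L, A l * Pool.Agent.R859.QD.bet l k := by
      intro L M A
      rw [Finset.sum_range_add]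
      have h2 : ∑ x ∈ range M, (if L + x < L then A (L + x) else 0) *
          Pool.Agent.R859.QD.bet (L + x) k = 0 := by
        refine Finset.sum_eq_zero fun x _ => ?_
        rw [if_neg (by omega), zero_mul]
      rw [h2, add_zero]
      refine Finset.sum_congr rfl fun l hl => ?_
      rw [if_pos (Finset.mem_range.1 hl)]
    simp only [add_mul, Finset.sum_add_distrib]
    rw [hf, hg, key L M A, add_comm L M, key M L B]

theorem InCone.sum {ι : Type} (s : Finset ι) (F : ι → ℕ → K) (hF : ∀ i ∈ s, InCone (F i)) :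
    InCone (fun k => ∑ i ∈ s, F i k) := by
  classical
  induction s using Finset.induction_on with
  | empty => simpa using InCone.zero
  | insert a s ha ih =>
    simp only [Finset.sum_insert ha]
    exact (hF a (Finset.mem_insert_self a s)).add
      (ih fun i hi => hF i (Finset.mem_insert_of_mem hi))

theorem InCone.mul {f g : ℕ → K} (hf : InCone f) (hg : InCone g) :
    InCone (fun k => f k * g k) := by
  obtain ⟨L, A, hA, hf⟩ := hf
  obtain ⟨M, B, hB, hg⟩ := hg
  have h1 : (fun k => f k * g k) = fun k => ∑ i ∈ range L, ∑ j ∈ range M,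
      ∑ l ∈ range (i + j + 1), (A i * B j * cc i j l) * Pool.Agent.R859.QD.bet l k := by
    funext k
    rw [hf, hg, Finset.sum_mul_sum]
    refine Finset.sum_congr rfl fun i _ => Finset.sum_congr rfl fun j _ => ?_
    have h2 := bet_mul i j k
    calc A i * Pool.Agent.R859.QD.bet i k * (B j * Pool.Agent.R859.QD.bet j k)
        = A i * B j * (Pool.Agent.R859.QD.bet i k * Pool.Agent.R859.QD.bet j k) := by ring
      _ = _ := by
        rw [h2, Finset.mul_sum]
        exact Finset.sum_congr rfl fun l _ => by ring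
  rw [h1]
  exact InCone.sum _ _ fun i _ => InCone.sum _ _ fun j _ => InCone.sum _ _ fun l _ =>
    InCone.bet l (((hA i).mul (hB j)).mul (isG_cc i j l))

theorem InCone.one : InCone (fun _ => 1) := by
  have := InCone.bet 0 (c := 1) IsG.one
  simpa [bet_zero] using this

theorem InCone.pow {f : ℕ → K} (hf : InCone f) (r : ℕ) : InCone (fun k => f k ^ r) := by
  induction r with
  | zero => simpa using InCone.one
  | succ r ih =>
    simp only [pow_succ]
    exact ih.mul hf

theorem pj_step (j m : ℕ) :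
    qn (m + 1 - j) * pj j (m + 1) = q ^ (-(j : ℤ)) * (qn (m + j + 1) * pj j m) := by
  rcases Nat.lt_or_ge m j with h | h
  · rw [pj_zero h]
    have : m + 1 - j = 0 := by omega
    rw [this, qn_zero]; ring
  · obtain ⟨c, rfl⟩ := Nat.exists_eq_add_of_le h
    have e1 : j + c + 1 - j = c + 1 := by omega
    have e2 : j + c + 1 = j + (c + 1) := by ring
    have e3 : j + c + j + 1 = 2 * j + c + 1 := by ring
    rw [e1, e2, pj_eq, e3, pj_eq]
    have e4 : 2 * j + (c + 1) = 2 * j + c + 1 := by ring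
    rw [e4, qf_succ, qf_succ]
    have e5 : q ^ (-((j * (j + (c + 1)) : ℕ) : ℤ)) =
        q ^ (-(j : ℤ)) * q ^ (-((j * (j + c) : ℕ) : ℤ)) := by
      rw [← zpow_add₀ q_ne]
      congr 1
      push_cast
      ring
    rw [e5]
    have := qf_ne c
    have := qn_succ_ne c
    field_simp

/-- summation with the weight `[2k+1] q^(-k)` -/
def fB (l n : ℕ) : K := q ^ ((l : ℤ) + 1 - n) * (qn n * (qn (n - l) * pj l n)) / qn (l + 1)

theorem fB_step (l n : ℕ) : fB l (n + 1) = fB l n + qn (2 * n + 1) * q ^ (-(n : ℤ)) * pj l n := by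
  rw [fB, fB, pj_step]
  rcases Nat.lt_or_ge n l with h | h
  · rw [pj_zero h]; ring
  · obtain ⟨c, rfl⟩ := Nat.exists_eq_add_of_le h
    have e1 : l + c - l = c := by omega
    rw [e1]
    have e2 : q ^ ((l : ℤ) + 1 - ((l + c + 1 : ℕ) : ℤ)) = q ^ (-((l + c : ℕ) : ℤ)) * q ^ l := by
      rw [← zpow_natCast q l, ← zpow_add₀ q_ne]
      congr 1
      push_cast
      ring
    have e3 : q ^ ((l : ℤ) + 1 - ((l + c : ℕ) : ℤ)) = q ^ (-((l + c : ℕ) : ℤ)) * q ^ (l + 1) := by
      rw [← zpow_natCast q (l + 1), ← zpow_add₀ q_ne]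
      congr 1
      push_cast
      ring
    have e4 : q ^ (-(l : ℤ)) * q ^ l = 1 := by
      rw [zpow_neg, zpow_natCast, inv_mul_cancel₀ (pow_ne_zero _ q_ne)]
    have e5 : qn (l + c + 1) * qn (l + c + l + 1) = q ^ (l + 1) * (qn (l + c) * qn c) +
        qn (2 * (l + c) + 1) * qn (l + 1) := by
      rw [qn_eq, qn_eq, qn_eq, qn_eq, qn_eq, qn_eq]
      have := one_sub_q_ne
      field_simp
      ring
    rw [e2, e3]
    have := qn_succ_ne l
    rw [div_add' _ _ _ this, div_left_inj' this]
    linear_combination (q ^ (-((l + c : ℕ) : ℤ)) * pj l (l + c)) * e5 +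
      (q ^ (-((l + c : ℕ) : ℤ)) * pj l (l + c) * qn (l + c + 1) * qn (l + c + l + 1)) * e4

theorem sumB (l n : ℕ) : ∑ k ∈ range n, qn (2 * k + 1) * q ^ (-(k : ℤ)) * pj l k = fB l n := by
  induction n with
  | zero => rw [fB, qn_zero]; simp
  | succ n ih => rw [Finset.sum_range_succ, ih, fB_step]

/-- alternating summation -/
def gC (l n : ℕ) : K := q ^ (n * (n - 1) / 2) * (qn (n - l) * pj l n)

theorem gC_step (l n : ℕ) :
    gC l (n + 1) = - gC l n + qn (2 * n + 1) * q ^ (n * (n - 1) / 2) * pj l n := by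
  rw [gC, gC, pj_step]
  rcases Nat.lt_or_ge n l with h | h
  · rw [pj_zero h]; ring
  · obtain ⟨c, rfl⟩ := Nat.exists_eq_add_of_le h
    have e1 : l + c - l = c := by omega
    rw [e1]
    have htri : ∀ x : ℕ, (x + 1) * (x + 1 - 1) / 2 = x * (x - 1) / 2 + x := by
      intro x
      have := Finset.sum_range_succ (fun i : ℕ => i) x
      rw [Finset.sum_range_id, Finset.sum_range_id] at this
      exact this
    rw [htri, pow_add, pow_add q l c]
    have e4 : q ^ (-(l : ℤ)) * q ^ l = 1 := by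
      rw [zpow_neg, zpow_natCast, inv_mul_cancel₀ (pow_ne_zero _ q_ne)]
    have e5 : qn (2 * (l + c) + 1) = qn c + q ^ c * qn (l + c + l + 1) := by
      rw [← qn_add]; congr 1; ring
    rw [e5]
    linear_combination (q ^ ((l + c) * (l + c - 1) / 2) * q ^ c * qn (l + c + l + 1) *
      pj l (l + c)) * e4

theorem sumC (l n : ℕ) :
    ∑ k ∈ range n, (-1) ^ (n - 1 - k) * (qn (2 * k + 1) * q ^ (k * (k - 1) / 2) * pj l k) =
      gC l n := by
  induction n with
  | zero =>
    have : (0 : ℕ) - l = 0 := by omega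
    rw [gC, this, qn_zero]; simp
  | succ n ih =>
    rw [Finset.sum_range_succ, gC_step, ← ih, ← Finset.sum_neg_distrib]
    congr 1
    · refine Finset.sum_congr rfl fun k hk => ?_
      have hk' := Finset.mem_range.1 hk
      have : n + 1 - 1 - k = (n - 1 - k) + 1 := by omega
      rw [this, pow_succ]; ring
    · have : n + 1 - 1 - n = 0 := by omega
      rw [this, pow_zero, one_mul]

theorem fB_NN (l n : ℕ) (hn : 1 ≤ n) : IsNN (fB l n / qn n / qf l ^ 2) := by
  rcases Nat.lt_or_ge l n with h | h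
  · obtain ⟨c, rfl⟩ := Nat.exists_eq_add_of_lt h
    have h1 : fB l (l + c + 1) / qn (l + c + 1) / qf l ^ 2 =
        q ^ ((l : ℤ) + 1 - ((l + c + 1 : ℕ) : ℤ)) * q ^ (-((l * (l + (c + 1)) : ℕ) : ℤ)) *
          (qb (l + c + 1 + l) l * qb (l + c + 1) (l + 1)) := by
      rw [fB, qb_eq (by omega), qb_eq (by omega)]
      have e1 : l + c + 1 - l = c + 1 := by omega
      have e2 : l + c + 1 + l - l = l + c + 1 := by omega
      have e3 : l + c + 1 - (l + 1) = c := by omega
      rw [e1, e2, e3]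
      have e4 : pj l (l + c + 1) = q ^ (-((l * (l + (c + 1)) : ℕ) : ℤ)) *
          (qf (2 * l + (c + 1)) / qf (c + 1)) := pj_eq l (c + 1)
      rw [e4]
      have e5 : l + c + 1 + l = 2 * l + (c + 1) := by ring
      rw [e5, qf_succ c, qf_succ l]
      have := qf_ne c
      have := qf_ne l
      have := qf_ne (l + c + 1)
      have := qn_succ_ne c
      have := qn_succ_ne l
      have := qn_succ_ne (l + c)
      field_simp
    rw [h1]
    exact ((IsG.q_zpow _).mul (IsG.q_zpow _)).mul ((IsG.qb _ _).mul (IsG.qb _ _))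
  · have h1 : fB l n = 0 := by
      rw [fB]
      have : n - l = 0 := by omega
      rw [this, qn_zero]; ring
    rw [h1, zero_div, zero_div]
    exact IsG.zero

theorem gC_NN (l n : ℕ) (hn : 1 ≤ n) : IsNN (gC l n / qn n / qf l ^ 2) := by
  rcases Nat.lt_or_ge l n with h | h
  · obtain ⟨c, rfl⟩ := Nat.exists_eq_add_of_lt h
    have h1 : gC l (l + c + 1) / qn (l + c + 1) / qf l ^ 2 =
        q ^ ((l + c + 1) * (l + c + 1 - 1) / 2) * q ^ (-((l * (l + (c + 1)) : ℕ) : ℤ)) *
          (qb (l + c + 1 + l) l * qb (l + c) l) := by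
      rw [gC, qb_eq (by omega), qb_eq (by omega)]
      have e1 : l + c + 1 - l = c + 1 := by omega
      have e2 : l + c + 1 + l - l = l + c + 1 := by omega
      have e3 : l + c - l = c := by omega
      rw [e1, e2, e3]
      have e4 : pj l (l + c + 1) = q ^ (-((l * (l + (c + 1)) : ℕ) : ℤ)) *
          (qf (2 * l + (c + 1)) / qf (c + 1)) := pj_eq l (c + 1)
      rw [e4]
      have e5 : l + c + 1 + l = 2 * l + (c + 1) := by ring
      rw [e5, qf_succ c, qf_succ (l + c)]
      have := qf_ne c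
      have := qf_ne l
      have := qf_ne (l + c)
      have := qn_succ_ne c
      have := qn_succ_ne (l + c)
      field_simp
    rw [h1]
    exact ((IsG.q_pow _).mul (IsG.q_zpow _)).mul ((IsG.qb _ _).mul (IsG.qb _ _))
  · have h1 : gC l n = 0 := by
      rw [gC]
      have : n - l = 0 := by omega
      rw [this, qn_zero]; ring
    rw [h1, zero_div, zero_div]
    exact IsG.zero

theorem coneB {f : ℕ → K} (hf : InCone f) (n : ℕ) (hn : 1 ≤ n) :
    IsNN ((∑ k ∈ range n, qn (2 * k + 1) * q ^ (-(k : ℤ)) * f k) / qn n) := by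
  obtain ⟨L, A, hA, hf⟩ := hf
  have h1 : (∑ k ∈ range n, qn (2 * k + 1) * q ^ (-(k : ℤ)) * f k) / qn n =
      ∑ l ∈ range L, A l * (fB l n / qn n / qf l ^ 2) := by
    simp only [hf, Finset.mul_sum]
    rw [Finset.sum_comm, Finset.sum_div]
    refine Finset.sum_congr rfl fun l _ => ?_
    rw [← sumB, Finset.sum_div, Finset.sum_div, Finset.sum_div, Finset.mul_sum]
    refine Finset.sum_congr rfl fun k _ => ?_
    rw [bet]
    ring
  rw [h1]
  exact IsG.sum _ _ fun l _ => (hA l).mul (fB_NN l n hn)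

theorem coneC {f : ℕ → K} (hf : InCone f) (n : ℕ) (hn : 1 ≤ n) :
    IsNN ((∑ k ∈ range n, (-1) ^ (n - 1 - k) *
      (qn (2 * k + 1) * q ^ (k * (k - 1) / 2) * f k)) / qn n) := by
  obtain ⟨L, A, hA, hf⟩ := hf
  have h1 : (∑ k ∈ range n, (-1) ^ (n - 1 - k) *
      (qn (2 * k + 1) * q ^ (k * (k - 1) / 2) * f k)) / qn n =
      ∑ l ∈ range L, A l * (gC l n / qn n / qf l ^ 2) := by
    simp only [hf, Finset.mul_sum]
    rw [Finset.sum_comm, Finset.sum_div]
    refine Finset.sum_congr rfl fun l _ => ?_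
    rw [← sumC, Finset.sum_div, Finset.sum_div, Finset.sum_div, Finset.mul_sum]
    refine Finset.sum_congr rfl fun k _ => ?_
    rw [bet]
    ring
  rw [h1]
  exact IsG.sum _ _ fun l _ => (hA l).mul (gC_NN l n hn)

end

end Pool.Agent.R859.QD
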