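import Pool.Agent.R859.QD.Rec

/-!
# The product formula for q-Delannoy numbers
-/

set_option autoImplicit false

open Finset

namespace Pool.Agent.R859.QD

open Pool.Agent.R859.QB

noncomputable section

/-- product of `(1+q^i)(1+q^(i+1))` -/
def uj (j : ℕ) : K := ∏ i ∈ range j, ((1 + q ^ i) * (1 + q ^ (i + 1)))

theorem uj_succ (j : ℕ) : uj (j + 1) = uj j * ((1 + q ^ j) * (1 + q ^ (j + 1))) := by
  rw [uj, Finset.prod_range_succ]; rfl

def dj (j : ℕ) : K := q ^ (j ^ 2) * uj j / (qf (2 * j) * qf j ^ 2)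

theorem dj_succ (j : ℕ) : dj (j + 1) = dj j * (q ^ (2 * j + 1) * ((1 + q ^ j) * (1 + q ^ (j + 1))) /
    (qn (2 * j + 1) * qn (2 * j + 2) * qn (j + 1) ^ 2)) := by
  rw [dj, dj, uj_succ]
  have e1 : 2 * (j + 1) = 2 * j + 1 + 1 := by ring
  have e2 : (j + 1) ^ 2 = j ^ 2 + (2 * j + 1) := by ring
  rw [e1, e2, qf_succ, qf_succ, qf_succ, pow_add]
  have := qf_ne (2 * j)
  have := qf_ne j
  have := qn_succ_ne j
  have := qn_succ_ne (2 * j)
  have := qn_succ_ne (2 * j + 1)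
  field_simp

/-- the coefficient `a_m` -/
def am (N m : ℕ) : K := q ^ m * qn (N + 1) + qn N
def am' (N m : ℕ) : K := qn (N + 1) + q ^ (m + 1) * qn N

def Aj (N j : ℕ) : K := q ^ (-(N : ℤ)) * (q ^ j * (q ^ j * qn (N + 1) + qn N)) / qn (2 * j + 1)
def Gj (N j : ℕ) : K := q ^ (-(N : ℤ)) * (q ^ j * (qn (N + 1) + q ^ (j + 1) * qn N)) / qn (2 * j + 1)

def PP (N m : ℕ) : K := ∑ j ∈ range (N + 1), dj j * pj j N * pj j m
def UU (N m : ℕ) : K := ∑ j ∈ range (N + 1), dj j * pj j N * (Aj N j * (qn (m - j) * pj j m))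
def VV (N m : ℕ) : K := ∑ j ∈ range (N + 1), dj j * pj j N * (Gj N j * (qn (m - j) * pj j m))

theorem UU_zero (N : ℕ) : UU N 0 = 0 := by
  refine Finset.sum_eq_zero fun j _ => ?_
  have : (0 : ℕ) - j = 0 := by omega
  rw [this, qn_zero]; ring

theorem VV_zero (N : ℕ) : VV N 0 = 0 := by
  refine Finset.sum_eq_zero fun j _ => ?_
  have : (0 : ℕ) - j = 0 := by omega
  rw [this, qn_zero]; ring

theorem PP_zero (N : ℕ) : PP N 0 = 1 := by
  rw [PP, Finset.sum_range_succ', Finset.sum_eq_zero, zero_add]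
  · rw [pj_zero_left, pj_zero_left, dj, uj, Finset.prod_range_zero, Nat.mul_zero, qf_zero]
    simp
  · intro j _
    rw [pj_zero (show 0 < j + 1 by omega)]; ring

theorem zinv (n : ℕ) : q ^ (-(n : ℤ)) * q ^ n = 1 := by
  rw [zpow_neg, zpow_natCast, inv_mul_cancel₀ (pow_ne_zero _ q_ne)]

theorem UU_succ (N m : ℕ) : UU N (m + 1) = q ^ (-(N : ℤ)) * am N m * PP N m + VV N m := by
  rw [UU, PP, VV, Finset.mul_sum, ← Finset.sum_add_distrib]
  refine Finset.sum_congr rfl fun j _ => ?_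
  rw [pj_step]
  rcases Nat.lt_or_ge m j with h | h
  · rw [pj_zero h]; ring
  · obtain ⟨c, rfl⟩ := Nat.exists_eq_add_of_le h
    have e1 : j + c - j = c := by omega
    rw [e1]
    have key : q ^ (-(j : ℤ)) * (Aj N j * qn (j + c + j + 1)) =
        q ^ (-(N : ℤ)) * am N (j + c) + Gj N j * qn c := by
      have h1 : qn (j + c + j + 1) = qn (2 * j + 1) + q ^ (2 * j + 1) * qn c := by
        rw [← qn_add]; congr 1; ring
      have h2 : qn (j + c + j + 1) = qn c + q ^ c * qn (2 * j + 1) := by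
        rw [← qn_add]; congr 1; ring
      have hz := zinv j
      have hn := qn_succ_ne (2 * j)
      have h3 : (q ^ j * qn (N + 1) + qn N) * qn (j + c + j + 1) =
          (q ^ (j + c) * qn (N + 1) + qn N) * qn (2 * j + 1) +
            q ^ j * (qn (N + 1) + q ^ (j + 1) * qn N) * qn c := by
        rw [pow_add q j c]
        have e2 : q ^ (2 * j + 1) = q ^ j * q ^ (j + 1) := by rw [← pow_add]; congr 1; ring
        rw [e2] at h1
        linear_combination (q ^ j * qn (N + 1)) * h2 + qn N * h1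
      rw [Aj, Gj, am]
      have h4 : q ^ (-(j : ℤ)) * (q ^ (-(N : ℤ)) * (q ^ j * (q ^ j * qn (N + 1) + qn N)) /
          qn (2 * j + 1) * qn (j + c + j + 1)) =
          (q ^ (-(j : ℤ)) * q ^ j) * q ^ (-(N : ℤ)) *
            ((q ^ j * qn (N + 1) + qn N) * qn (j + c + j + 1)) / qn (2 * j + 1) := by ring
      rw [h4, hz, h3]
      field_simp
    linear_combination (dj j * pj j N * pj j (j + c)) * key

theorem VV_succ (N m : ℕ) : VV N (m + 1) = q ^ (-(N : ℤ)) * am' N m * PP N m + q * UU N m := by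
  rw [UU, PP, VV, Finset.mul_sum, Finset.mul_sum, ← Finset.sum_add_distrib]
  refine Finset.sum_congr rfl fun j _ => ?_
  rw [pj_step]
  rcases Nat.lt_or_ge m j with h | h
  · rw [pj_zero h]; ring
  · obtain ⟨c, rfl⟩ := Nat.exists_eq_add_of_le h
    have e1 : j + c - j = c := by omega
    rw [e1]
    have key : q ^ (-(j : ℤ)) * (Gj N j * qn (j + c + j + 1)) =
        q ^ (-(N : ℤ)) * am' N (j + c) + q * Aj N j * qn c := by
      have h1 : qn (j + c + j + 1) = qn (2 * j + 1) + q ^ (2 * j + 1) * qn c := by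
        rw [← qn_add]; congr 1; ring
      have h2 : qn (j + c + j + 1) = qn c + q ^ c * qn (2 * j + 1) := by
        rw [← qn_add]; congr 1; ring
      have hz := zinv j
      have hn := qn_succ_ne (2 * j)
      have h3 : (qn (N + 1) + q ^ (j + 1) * qn N) * qn (j + c + j + 1) =
          (qn (N + 1) + q ^ (j + c + 1) * qn N) * qn (2 * j + 1) +
            q * (q ^ j * (q ^ j * qn (N + 1) + qn N)) * qn c := by
        have e2 : q ^ (2 * j + 1) = q * q ^ j * q ^ j := by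
          rw [pow_succ, two_mul, pow_add]; ring
        have e3 : q ^ (j + c + 1) = q ^ j * q ^ c * q := by rw [pow_succ, pow_add]
        have e4 : q ^ (j + 1) = q ^ j * q := pow_succ q j
        rw [e2] at h1
        rw [e3, e4]
        linear_combination (q ^ j * q * qn N) * h2 + qn (N + 1) * h1
      rw [Aj, Gj, am']
      have h4 : q ^ (-(j : ℤ)) * (q ^ (-(N : ℤ)) * (q ^ j * (qn (N + 1) + q ^ (j + 1) * qn N)) /
          qn (2 * j + 1) * qn (j + c + j + 1)) =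
          (q ^ (-(j : ℤ)) * q ^ j) * q ^ (-(N : ℤ)) *
            ((qn (N + 1) + q ^ (j + 1) * qn N) * qn (j + c + j + 1)) / qn (2 * j + 1) := by ring
      rw [h4, hz, h3]
      field_simp
    linear_combination (dj j * pj j N * pj j (j + c)) * key

/-- the telescoping quantity -/
def Fj (m j : ℕ) : K :=
  if j ≤ m + 1 then q ^ ((m : ℤ) + 1 - 2 * j - j * m) * (qn (2 * m + 1) * qn (2 * j) * qn j ^ 2) *
    (qf (m + j - 1) / qf (m + 1 - j)) else 0

/-- the dependence on `N` -/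
theorem N_part (N m j : ℕ) :
    q ^ (-(N : ℤ)) * (am N m * am' N m) * qn (2 * j + 1) +
      (q * am N m * (q ^ (-(N : ℤ)) * (q ^ j * (q ^ j * qn (N + 1) + qn N))) +
        am' N m * (q ^ (-(N : ℤ)) * (q ^ j * (qn (N + 1) + q ^ (j + 1) * qn N)))) * qn (m - j) =
    (q ^ m * qn (2 * j + 1) + (q ^ (2 * j + 1 + m) + q ^ j) * qn (m - j)) +
      xx N * ((1 + q ^ m) * (1 + q ^ (m + 1)) * qn (2 * j + 1) +
        ((q ^ (2 * j + 1 + m) + q ^ j) * (1 + q) + 2 * (q ^ (2 * j + 1) + q ^ (m + j + 1))) *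
          qn (m - j)) := by
  have hs : q ^ (-(N : ℤ)) * (qn (N + 1) ^ 2 + q * qn N ^ 2) =
      1 + (1 + q) * xx N := by
    have h1 : qn (N + 1) = qn N + q ^ N := qn_succ N
    have h2 : qn (N + 1) = 1 + q * qn N := by
      rw [add_comm N 1, qn_add, qn_one, pow_one]
    have hz := zinv N
    rw [xx]
    have h3 : qn (N + 1) ^ 2 + q * qn N ^ 2 = q ^ N + (1 + q) * (qn N * qn (N + 1)) := by
      have h4 : q ^ N = qn (N + 1) - qn N := by rw [h1]; ring
      have h5 : q ^ N * (qn (N + 1) - q * qn N) = q ^ N := by rw [h2]; ring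
      rw [h4] at h5
      linear_combination h5 - h4
    rw [h3]
    linear_combination hz
  rw [xx] at hs ⊢
  rw [am, am']
  have e1 : q ^ (2 * j + 1 + m) = q ^ j * q ^ j * q * q ^ m := by
    rw [pow_add, pow_succ, two_mul, pow_add]
  have e2 : q ^ (2 * j + 1) = q ^ j * q ^ j * q := by
    rw [pow_succ, two_mul, pow_add]
  have e3 : q ^ (m + j + 1) = q ^ m * q ^ j * q := by rw [pow_succ, pow_add]
  have e4 : q ^ (j + 1) = q ^ j * q := pow_succ q j
  have e5 : q ^ (m + 1) = q ^ m * q := pow_succ q m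
  rw [e1, e2, e3, e4, e5]
  linear_combination (q ^ m * qn (2 * j + 1) +
    (q ^ j * q ^ j * q * q ^ m + q ^ j) * qn (m - j)) * hs

/-- the coefficient of `x_N` -/
theorem id1 (j c : ℕ) :
    (1 + q ^ (j + c)) * (1 + q ^ (j + c + 1)) * qn (2 * j + 1) +
        ((q ^ (2 * j + 1 + (j + c)) + q ^ j) * (1 + q) +
          2 * (q ^ (2 * j + 1) + q ^ (j + c + j + 1))) * qn c =
      (1 + q ^ j) * (1 + q ^ (j + 1)) * qn (2 * (j + c) + 1) := by
  rw [qn_eq, qn_eq, qn_eq]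
  have := one_sub_q_ne
  field_simp
  ring

/-- the bracket -/
def br (N m j : ℕ) : K :=
  qn (m + 1) ^ 2 * pj j (m + 1) - q * (qn m ^ 2 * pj j (m - 1)) -
    q ^ (-(N : ℤ)) * (am N m * am' N m) * pj j m -
    (q * am N m * Aj N j + am' N m * Gj N j) * (qn (m - j) * pj j m)

/-- abstract rational identity -/
theorem abs_ident (q X Y : K) (hq : q ≠ 0) (hX : X ≠ 0) (h1 : 1 - q ≠ 0)
    (h2 : 1 - X ^ 2 * Y ≠ 0) (h3 : 1 - Y * q ≠ 0) (h4 : 1 - X ^ 2 * q ≠ 0) :
    X⁻¹ * ((1 - X * Y * q) / (1 - q)) ^ 2 * ((1 - X ^ 2 * Y * q) / (1 - q)) /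
        ((1 - Y * q) / (1 - q)) -
      q * ((1 - X * Y) / (1 - q)) ^ 2 * (X * ((1 - Y) / (1 - q)) / ((1 - X ^ 2 * Y) / (1 - q))) -
      (X * Y * ((1 - X ^ 2 * q) / (1 - q)) +
        (X ^ 2 * q * (X * Y) + X) * ((1 - Y) / (1 - q))) / ((1 - X ^ 2 * q) / (1 - q)) =
    q * (X * Y) * (X ^ 2)⁻¹ * ((1 - X ^ 2 * Y ^ 2 * q) / (1 - q)) * ((1 - X ^ 2) / (1 - q)) *
        ((1 - X) / (1 - q)) ^ 2 / (((1 - X ^ 2 * Y) / (1 - q)) * ((1 - Y * q) / (1 - q))) +
      (1 + X) * (1 + X * q) * ((1 - X ^ 2 * Y ^ 2 * q) / (1 - q)) / ((1 - X ^ 2 * q) / (1 - q)) *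
        (X⁻¹ * (((1 - X) / (1 - q)) * ((1 - X * q) / (1 - q)))) := by
  field_simp
  ring

/-- value of the bracket for `j ≤ m`, `m + j ≥ 1` -/
theorem br_eq (N j c : ℕ) (hm : 1 ≤ j + c) :
    br N (j + c) j = Fj (j + c) j -
      (1 + q ^ j) * (1 + q ^ (j + 1)) * (qn (2 * (j + c) + 1) / qn (2 * j + 1)) *
        (xx N - xx j) * pj j (j + c) := by
  obtain ⟨m, hm'⟩ := Nat.exists_eq_add_of_le hm
  have hqm : qn (j + c + j) ≠ 0 := qn_ne_zero (by omega)
  have hc1 := qn_succ_ne c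
  have h2j := qn_succ_ne (2 * j)
  -- first two terms
  have t1 : pj j (j + c + 1) = (q ^ j)⁻¹ * qn (j + c + j + 1) / qn (c + 1) * pj j (j + c) := by
    have h := pj_step j (j + c)
    have e1 : j + c + 1 - j = c + 1 := by omega
    rw [e1, zpow_neg, zpow_natCast] at h
    field_simp at h ⊢
    linear_combination h
  have t2 : pj j (j + c - 1) = q ^ j * qn c / qn (j + c + j) * pj j (j + c) := by
    have h := pj_step j (j + c - 1)
    have e1 : j + c - 1 + 1 = j + c := by omega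
    have e2 : j + c - j = c := by omega
    have e3 : j + c - 1 + j + 1 = j + c + j := by omega
    rw [e1, e2, e3, zpow_neg, zpow_natCast] at h
    have := pow_ne_zero j q_ne
    field_simp at h ⊢
    linear_combination -h
  have t3 : Fj (j + c) j = q ^ (j + c + 1) * (q ^ (2 * j))⁻¹ * qn (2 * (j + c) + 1) * qn (2 * j) *
      qn j ^ 2 / (qn (j + c + j) * qn (c + 1)) * pj j (j + c) := by
    rw [Fj, if_pos (by omega), pj, if_pos (by omega)]
    have e1 : j + c - j = c := by omega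
    have e2 : j + c + 1 - j = c + 1 := by omega
    have e3 : qf (j + c + j) = qf (j + c + j - 1) * qn (j + c + j) := by
      have : j + c + j = (j + c + j - 1) + 1 := by omega
      rw [this, qf_succ]
      rfl
    rw [e1, e2, e3, qf_succ c]
    have e4 : q ^ (((j + c : ℕ) : ℤ) + 1 - 2 * j - j * ((j + c : ℕ) : ℤ)) =
        q ^ (j + c + 1) * (q ^ (2 * j))⁻¹ * q ^ (-((j * (j + c) : ℕ) : ℤ)) := by
      rw [← zpow_natCast q (j + c + 1), ← zpow_natCast q (2 * j), ← zpow_neg, ← zpow_add₀ q_ne,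
        ← zpow_add₀ q_ne]
      congr 1
    rw [e4]
    have := qf_ne c
    field_simp
  have t4 := N_part N (j + c) j
  have e2 : j + c - j = c := by omega
  rw [e2, id1] at t4
  have t5 : q ^ (-(N : ℤ)) * (am N (j + c) * am' N (j + c)) +
      (q * am N (j + c) * Aj N j + am' N (j + c) * Gj N j) * qn c =
      (q ^ (j + c) * qn (2 * j + 1) + (q ^ (2 * j + 1 + (j + c)) + q ^ j) * qn c) / qn (2 * j + 1) +
        xx N * ((1 + q ^ j) * (1 + q ^ (j + 1)) * qn (2 * (j + c) + 1)) / qn (2 * j + 1) := by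
    rw [← add_div, ← t4, Aj, Gj]
    field_simp
  have habs := abs_ident q (q ^ j) (q ^ c) q_ne (pow_ne_zero _ q_ne) one_sub_q_ne
    (by rw [← pow_mul, ← pow_add]; exact one_sub_pow_ne (by omega))
    (by rw [← pow_succ]; exact one_sub_pow_ne (by omega))
    (by rw [← pow_mul, ← pow_succ]; exact one_sub_pow_ne (by omega))
  have k1 : (1 - q ^ j * q ^ c * q) / (1 - q) = qn (j + c + 1) := by
    rw [qn_eq, pow_succ, pow_add]
  have k2 : (1 - (q ^ j) ^ 2 * q ^ c * q) / (1 - q) = qn (j + c + j + 1) := by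
    rw [qn_eq]; ring
  have k3 : (1 - q ^ c * q) / (1 - q) = qn (c + 1) := by rw [qn_eq, pow_succ]
  have k4 : (1 - q ^ j * q ^ c) / (1 - q) = qn (j + c) := by rw [qn_eq, pow_add]
  have k5 : (1 - q ^ c) / (1 - q) = qn c := by rw [qn_eq]
  have k6 : (1 - (q ^ j) ^ 2 * q ^ c) / (1 - q) = qn (j + c + j) := by rw [qn_eq]; ring
  have k7 : (1 - (q ^ j) ^ 2 * q) / (1 - q) = qn (2 * j + 1) := by rw [qn_eq]; ring
  have k8 : (1 - (q ^ j) ^ 2 * (q ^ c) ^ 2 * q) / (1 - q) = qn (2 * (j + c) + 1) := by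
    rw [qn_eq]; ring
  have k9 : (1 - (q ^ j) ^ 2) / (1 - q) = qn (2 * j) := by rw [qn_eq]; ring
  have k10 : (1 - q ^ j) / (1 - q) = qn j := by rw [qn_eq]
  have k11 : (1 - q ^ j * q) / (1 - q) = qn (j + 1) := by rw [qn_eq, pow_succ]
  rw [k1, k2, k3, k4, k5, k6, k7, k8, k9, k10, k11] at habs
  rw [br, t1, t2, t3]
  have e2' : j + c - j = c := by omega
  rw [e2']
  have hx : xx j = (q ^ j)⁻¹ * (qn j * qn (j + 1)) := by
    rw [xx, zpow_neg, zpow_natCast]
  have m1 : q ^ (j + c) = q ^ j * q ^ c := pow_add q j c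
  have m2 : q ^ (2 * j + 1 + (j + c)) = (q ^ j) ^ 2 * q * (q ^ j * q ^ c) := by ring
  have m3 : q ^ (j + c + 1) = q * (q ^ j * q ^ c) := by ring
  have m4 : q ^ (2 * j) = (q ^ j) ^ 2 := by ring
  have m5 : q ^ (j + 1) = q ^ j * q := by ring
  rw [m1, m2, m5] at t5
  rw [m3, m4, m5, hx]
  linear_combination (-(pj j (j + c))) * t5 + (pj j (j + c)) * habs

end

end Pool.Agent.R859.QD
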