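import Pool.Agent.R859.QD.Newton

/-!
# The three-term recurrences of the q-Delannoy numbers
-/

set_option autoImplicit false

open Finset

namespace Pool.Agent.R859.QD

open Pool.Agent.R859.QB

noncomputable section

/-- convolution -/
def cv (e c : ℕ → K) (m : ℕ) : K := ∑ p ∈ antidiagonal m, e p.1 * c p.2

theorem sh1 (N : ℕ) (e c : ℕ → K) (hc : ∀ l, qn (l + 1) * c (l + 1) = qn (N + l + 1) * c l)
    (m : ℕ) :
    ∑ p ∈ antidiagonal (m + 1), qn p.2 * (e p.1 * c p.2) =
      ∑ p ∈ antidiagonal m, qn (N + p.2 + 1) * (e p.1 * c p.2) := by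
  rw [Finset.Nat.sum_antidiagonal_succ']
  dsimp only
  rw [qn_zero, zero_mul, zero_add]
  refine Finset.sum_congr rfl fun p _ => ?_
  linear_combination (e p.1) * hc p.2

theorem sh2 (N : ℕ) (e c : ℕ → K) (θ : K)
    (he : ∀ i, qn (i + 1) * e (i + 1) = θ * (qn N - qn i) * e i) (φ : ℕ → K) (m : ℕ) :
    ∑ p ∈ antidiagonal (m + 1), φ p.2 * qn p.1 * (e p.1 * c p.2) =
      ∑ p ∈ antidiagonal m, φ p.2 * (θ * (qn N - qn p.1)) * (e p.1 * c p.2) := by
  rw [Finset.Nat.sum_antidiagonal_succ]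
  dsimp only
  rw [qn_zero, mul_zero, zero_mul, zero_add]
  refine Finset.sum_congr rfl fun p _ => ?_
  linear_combination (φ p.2 * c p.2) * he p.1

theorem cv_succ (N : ℕ) (e c : ℕ → K) (θ : K)
    (he : ∀ i, qn (i + 1) * e (i + 1) = θ * (qn N - qn i) * e i)
    (hc : ∀ l, qn (l + 1) * c (l + 1) = qn (N + l + 1) * c l) (m : ℕ) :
    qn (m + 1) * cv e c (m + 1) =
      ∑ p ∈ antidiagonal m, (qn (N + p.2 + 1) + q ^ p.2 * (θ * (qn N - qn p.1))) *
        (e p.1 * c p.2) := by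
  have h1 : qn (m + 1) * cv e c (m + 1) =
      ∑ p ∈ antidiagonal (m + 1), qn p.2 * (e p.1 * c p.2) +
      ∑ p ∈ antidiagonal (m + 1), q ^ p.2 * qn p.1 * (e p.1 * c p.2) := by
    rw [cv, Finset.mul_sum, ← Finset.sum_add_distrib]
    refine Finset.sum_congr rfl fun p hp => ?_
    have h2 := Finset.HasAntidiagonal.mem_antidiagonal.1 hp
    rw [← h2, add_comm p.1 p.2, qn_add]
    ring
  rw [h1, sh1 N e c hc, sh2 N e c θ he (fun l => q ^ l), ← Finset.sum_add_distrib]
  exact Finset.sum_congr rfl fun p _ => by ring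

theorem rec1 (N : ℕ) (e c : ℕ → K)
    (he : ∀ i, qn (i + 1) * e (i + 1) = 1 * (qn N - qn i) * e i)
    (hc : ∀ l, qn (l + 1) * c (l + 1) = qn (N + l + 1) * c l) (m : ℕ) :
    qn (m + 1) * cv e c (m + 1) = (q ^ m * qn (N + 1) + qn N) * cv e c m +
      q ^ N * (qn m * cv e c (m - 1)) := by
  rw [cv_succ N e c 1 he hc]
  have h1 : ∑ p ∈ antidiagonal m, (qn (N + p.2 + 1) + q ^ p.2 * (1 * (qn N - qn p.1))) *
        (e p.1 * c p.2) = (q ^ m * qn (N + 1) + qn N) * cv e c m +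
        q ^ N * (∑ p ∈ antidiagonal m, qn p.2 * (e p.1 * c p.2) -
          ∑ p ∈ antidiagonal m, q ^ (p.2 + 1) * qn p.1 * (e p.1 * c p.2)) := by
    rw [cv, Finset.mul_sum, ← Finset.sum_sub_distrib, Finset.mul_sum, ← Finset.sum_add_distrib]
    refine Finset.sum_congr rfl fun p hp => ?_
    have h2 := Finset.HasAntidiagonal.mem_antidiagonal.1 hp
    have h3 : qn (N + p.2 + 1) + q ^ p.2 * (1 * (qn N - qn p.1)) =
        (q ^ m * qn (N + 1) + qn N) + q ^ N * (qn p.2 - q ^ (p.2 + 1) * qn p.1) := by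
      rw [← h2, qn_eq, qn_eq, qn_eq, qn_eq, qn_eq]
      have := one_sub_q_ne
      field_simp
      ring
    rw [h3]
    ring
  rw [h1]
  congr 2
  cases m with
  | zero => simp [qn_zero]
  | succ m =>
    rw [sh1 N e c hc, sh2 N e c 1 he (fun l => q ^ (l + 1)), ← Finset.sum_sub_distrib,
      Nat.add_sub_cancel, cv, Finset.mul_sum]
    refine Finset.sum_congr rfl fun p hp => ?_
    have h2 := Finset.HasAntidiagonal.mem_antidiagonal.1 hp
    have h3 : qn (N + p.2 + 1) - q ^ (p.2 + 1) * (1 * (qn N - qn p.1)) = qn (m + 1) := by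
      rw [← h2, qn_eq, qn_eq, qn_eq, qn_eq]
      have := one_sub_q_ne
      field_simp
      ring
    rw [← h3]
    ring

theorem rec2 (N : ℕ) (e c : ℕ → K)
    (he : ∀ i, qn (i + 1) * e (i + 1) = q * (qn N - qn i) * e i)
    (hc : ∀ l, qn (l + 1) * c (l + 1) = qn (N + l + 1) * c l) (m : ℕ) :
    qn (m + 1) * cv e c (m + 1) = (qn (N + 1) + q ^ (m + 1) * qn N) * cv e c m +
      q ^ (N + 1) * (qn m * cv e c (m - 1)) := by
  rw [cv_succ N e c q he hc]
  have h1 : ∑ p ∈ antidiagonal m, (qn (N + p.2 + 1) + q ^ p.2 * (q * (qn N - qn p.1))) *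
        (e p.1 * c p.2) = (qn (N + 1) + q ^ (m + 1) * qn N) * cv e c m +
        q ^ (N + 1) * (∑ p ∈ antidiagonal m, qn p.2 * (e p.1 * c p.2) -
          ∑ p ∈ antidiagonal m, q ^ p.2 * qn p.1 * (e p.1 * c p.2)) := by
    rw [cv, Finset.mul_sum, ← Finset.sum_sub_distrib, Finset.mul_sum, ← Finset.sum_add_distrib]
    refine Finset.sum_congr rfl fun p hp => ?_
    have h2 := Finset.HasAntidiagonal.mem_antidiagonal.1 hp
    have h3 : qn (N + p.2 + 1) + q ^ p.2 * (q * (qn N - qn p.1)) =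
        (qn (N + 1) + q ^ (m + 1) * qn N) + q ^ (N + 1) * (qn p.2 - q ^ p.2 * qn p.1) := by
      rw [← h2, qn_eq, qn_eq, qn_eq, qn_eq, qn_eq]
      have := one_sub_q_ne
      field_simp
      ring
    rw [h3]
    ring
  rw [h1]
  congr 2
  cases m with
  | zero => simp [qn_zero]
  | succ m =>
    rw [sh1 N e c hc, sh2 N e c q he (fun l => q ^ l), ← Finset.sum_sub_distrib,
      Nat.add_sub_cancel, cv, Finset.mul_sum]
    refine Finset.sum_congr rfl fun p hp => ?_
    have h2 := Finset.HasAntidiagonal.mem_antidiagonal.1 hp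
    have h3 : qn (N + p.2 + 1) - q ^ p.2 * (q * (qn N - qn p.1)) = qn (m + 1) := by
      rw [← h2, qn_eq, qn_eq, qn_eq, qn_eq]
      have := one_sub_q_ne
      field_simp
      ring
    rw [← h3]
    ring

/-- the coefficients -/
def ee (N i : ℕ) : K := q ^ (i * (i - 1) / 2) * qb N i

def ee' (N i : ℕ) : K := q ^ i * ee N i

def ccf (N l : ℕ) : K := qb (N + l) N

theorem tri (x : ℕ) : (x + 1) * (x + 1 - 1) / 2 = x * (x - 1) / 2 + x := by
  have := Finset.sum_range_succ (fun i : ℕ => i) x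
  rw [Finset.sum_range_id, Finset.sum_range_id] at this
  exact this

theorem ee_rec (N i : ℕ) : qn (i + 1) * ee N (i + 1) = 1 * (qn N - qn i) * ee N i := by
  rw [ee, ee, tri, pow_add]
  rcases Nat.lt_or_ge N i with h | h
  · rw [qb_eq_zero h, qb_eq_zero (show N < i + 1 by omega)]; ring
  · have h1 : qn N - qn i = q ^ i * qn (N - i) := by
      have : qn N = qn i + q ^ i * qn (N - i) := by rw [← qn_add]; congr 1; omega
      rw [this]; ring
    have h2 : qn (N - i) * qb N i = qn (i + 1) * qb N (i + 1) := by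
      rcases Nat.eq_or_lt_of_le h with h3 | h3
      · subst h3
        rw [Nat.sub_self, qn_zero, qb_eq_zero (Nat.lt_succ_self i)]; ring
      · obtain ⟨c, rfl⟩ := Nat.exists_eq_add_of_lt h3
        rw [qb_eq (by omega), qb_eq (by omega)]
        have e1 : i + c + 1 - i = c + 1 := by omega
        have e2 : i + c + 1 - (i + 1) = c := by omega
        rw [e1, e2, qf_succ i, qf_succ c]
        have := qf_ne i
        have := qf_ne c
        have := qn_succ_ne i
        have := qn_succ_ne c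
        field_simp
    rw [h1]
    linear_combination (-(q ^ (i * (i - 1) / 2) * q ^ i)) * h2

theorem ee'_rec (N i : ℕ) : qn (i + 1) * ee' N (i + 1) = q * (qn N - qn i) * ee' N i := by
  rw [ee', ee', pow_succ]
  linear_combination (q ^ i * q) * ee_rec N i

theorem ccf_rec (N l : ℕ) : qn (l + 1) * ccf N (l + 1) = qn (N + l + 1) * ccf N l := by
  rw [ccf, ccf, qb_eq (by omega), qb_eq (by omega)]
  have e1 : N + (l + 1) - N = l + 1 := by omega
  have e2 : N + l - N = l := by omega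
  have e3 : N + (l + 1) = N + l + 1 := by ring
  rw [e1, e2, e3, qf_succ (N + l), qf_succ l]
  have := qf_ne N
  have := qf_ne l
  have := qn_succ_ne l
  field_simp

/-- `D_q(m, N)` -/
def yy (N m : ℕ) : K := cv (ee N) (ccf N) m

/-- `q^(mN) D_{1/q}(m, N)` -/
def zz (N m : ℕ) : K := cv (ee' N) (ccf N) m

theorem yy_rec (N m : ℕ) : qn (m + 1) * yy N (m + 1) =
    (q ^ m * qn (N + 1) + qn N) * yy N m + q ^ N * (qn m * yy N (m - 1)) :=
  rec1 N _ _ (ee_rec N) (ccf_rec N) m

theorem zz_rec (N m : ℕ) : qn (m + 1) * zz N (m + 1) =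
    (qn (N + 1) + q ^ (m + 1) * qn N) * zz N m + q ^ (N + 1) * (qn m * zz N (m - 1)) :=
  rec2 N _ _ (ee'_rec N) (ccf_rec N) m

theorem yy_zero (N : ℕ) : yy N 0 = 1 := by
  simp [yy, cv, ee, ccf, qb_zero, qb_self]

theorem zz_zero (N : ℕ) : zz N 0 = 1 := by
  simp [zz, cv, ee', ee, ccf, qb_zero, qb_self]

end

end Pool.Agent.R859.QD
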